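import Pool.Agent.Work.MP_8f87b2_h63.BWg
import Pool.Agent.Work.MP_8f87b2_h16.JBW
import Pool.Agent.Work.MP_8f87b2_h25.J2Bi2
import Pool.Agent.Work.MP_8f87b2_h99.J2I2
import Pool.Agent.Work.MP_8f87b2_h50.WinJ2

/-!
# MP_8f87b2_co: J2B (all 20 words `W R nil B S i`) against all gadgets on words of windows with `q ≥ 1` (`PWb g`: TyRq, TyRqE, TyBw,
MarA, MarB, the joined windows LA, LB, LC), common words and inner words, both directions

`A` is any set of words `W R nil B S i` (`i < 20`, `SqD k R B S`): J2B, J2B merged with E pairs, J3V.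
* `PWb.common_J2`: only `q = 1` and the six hits of helper16; `PWb.dis_J2_a`: none if `2 ∈ cont R`.
* `TyMarA`, `TyMarB`, `TyMarB'` over a window with `q ≥ 1`: no common word.
* `J3.J2In.inner_PWb`: an inner word of J2B is never a word of such a gadget; `J3.J2In.inner_BwC`: the same for all B-windows (`c ≥ 2`);
  `J3.J2In.inner_MarA`, `inner_MarB`, `inner_MarB'`: every `q`.
* `PWn n g`: the windows have height `n` (`TyBw.pwn`, `TyRq.pwn`, `TyRqE.pwn`, `PWn.of`). `PWn.common_ht`: a common word needs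
  `ht R = n + 1` or `n + 2`; `PWn.inner_J2`, `PWn.inner_J2_sharp` (helper50's list): inner words of the windows, `n ≤ ht R`.
-/

set_option autoImplicit false
set_option linter.all false

namespace Pool.OddHC

open Finset Equiv BinaryTree Pool.Agent.Work.MP_8f87b2_co J3

variable {k q : ℕ} {F F' : Set (Cyc k)} {g g' : DG k} {R B S R' B' S' : BinaryTree Unit} {A : Finset (X k)}

/-- no part 1 if all parts are at least 3 -/
theorem cnt1_of3 {t : BinaryTree Unit} (h : ∀ x ∈ OddHC.cont t, 3 ≤ x) : (OddHC.cont t).count 1 = 0 := by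
  rw [Multiset.count_eq_zero]
  intro h1
  have := h 1 h1
  omega

/-- the data `PT` are window data in the sense of helper16 -/
theorem H1.PT.wd (h : H1.PT q R' B' S') : MV.WD R' B' S' where
  fR := MV.Hf.of h.pd.R3
  fB := MV.Hf.of h.pd.B3
  fS := MV.Hf.of h.pd.S3
  tR := by have := h.pd.dat.big; omega
  tS := by have := h.pd.dat.big; have := h.pd.dat.htS; omega
  cR := cnt1_of3 h.pd.R3
  cB := cnt1_of3 h.pd.B3
  cS := cnt1_of3 h.pd.S3

/-- **common words of J2B and a window gadget, exact list** -/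
theorem PWb.common_J2 (h : PWb g) (hd : SqD k R B S) (hA : ∀ w ∈ A, ∃ i < 20, w.1 = H1.W R .nil B S i) {w : X k}
    (hw : w ∈ g.B) (hw' : w ∈ A) : ∃ (R' B' S' : BinaryTree Unit) (j : ℕ), H1.PT 1 R' B' S' ∧ j < 20 ∧
      w.1 = H1.W R' (H1.ch (1 + 1)) B' S' j ∧ MV.Con 1 R B S R' B' S' := by
  obtain ⟨q, R', B', S', j, h1, hj, e⟩ := h.w w hw
  obtain ⟨i, hi, e'⟩ := hA w hw'
  have hc := MV.win0 hd h1.wd hi hj (q := q) (by rw [← e, ← e'])
  have hq := h1.pd.q1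
  obtain rfl : q = 1 := by
    obtain ⟨Y, _, h2 | h2⟩ := hc
    · omega
    · exact h2.1
  exact ⟨R', B', S', j, h1, hj, e, hc⟩

/-- `a ≥ 2`: no common word -/
theorem PWb.dis_J2_a (h : PWb g) (hd : SqD k R B S) (hA : ∀ w ∈ A, ∃ i < 20, w.1 = H1.W R .nil B S i)
    (h2 : 2 ∈ OddHC.cont R) : ∀ w ∈ g.B, w ∉ A := by
  intro w hw hw'
  obtain ⟨R', B', S', j, h1, _, _, hc⟩ := h.common_J2 hd hA hw hw'
  exact hc.no2 hd h1.pd.R3 h1.pd.B3 h1.pd.S3 h1.wd.pR.1 h1.wd.pS.1 h2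

/-- the parts of `R` in a collision: all at least `3`, and every part `x` of `R'` with `x + 1 < ht R` is in `R` -/
theorem PWb.common_J2_parts (h : PWb g) (hd : SqD k R B S) (hA : ∀ w ∈ A, ∃ i < 20, w.1 = H1.W R .nil B S i) {w : X k}
    (hw : w ∈ g.B) (hw' : w ∈ A) : 2 ∉ OddHC.cont R := fun h2 => h.dis_J2_a hd hA h2 w hw hw'

/-! ### Marriages -/

/-- the triple over a window, `q ≥ 1`: words 0, 5, 6 -/
theorem MV.mar056 (h : SqD k R B S) (w : MV.WD R' B' S') (hq : 1 ≤ q) {i j : ℕ} (hi : i < 20)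
    (hj : j = 0 ∨ j = 5 ∨ j = 6) (e : H1.W R .nil B S i = H1.W R' (H1.ch (q + 1)) B' S' j) : False := by
  rcases hj with rfl | rfl | rfl
  · exact MV.ww0 h w hi e
  · exact MV.ww5 h w hi e
  · obtain ⟨q, rfl⟩ : ∃ m, q = m + 1 := ⟨q - 1, by omega⟩
    have pR := w.pR
    have pc : MV.Pu (H1.ch (q + 2)) := MV.pu_ch q
    have e' : comps (H1.W R .nil B S i) = [R', H1.ch (q + 2)] := by
      rw [e]; rfl
    refine MV.clsO h hi e' (x := R') (l1 := [H1.ch (q + 2)]) (l2 := [R']) (y := H1.ch (q + 2)) rfl rfl (by simp)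
      ?_ ?_ (fun S0 _ => pR.x S0) (fun B0 _ => pc.y B0)
    · simp only [List.mem_cons, List.not_mem_nil, or_false, not_or]
      exact ⟨fun h => pR.1 h.symm, fun h => pc.1 h.symm⟩
    · simp only [List.mem_cons, List.not_mem_nil, or_false, not_or]
      exact ⟨fun h => pR.2.1 h.symm, fun h => pc.2.1 h.symm⟩

/-- the triple under a window, `q ≥ 1`: words 10, 15, 16 -/
theorem MV.mar1056 (h : SqD k R B S) (w : MV.WD R' B' S') (hq : 1 ≤ q) {i j : ℕ} (hi : i < 20)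
    (hj : j = 10 ∨ j = 15 ∨ j = 16) (e : H1.W R .nil B S i = H1.W R' (H1.ch (q + 1)) B' S' j) : False := by
  rcases hj with rfl | rfl | rfl
  · exact MV.ww10 h w hi e
  · obtain ⟨q, rfl⟩ : ∃ m, q = m + 1 := ⟨q - 1, by omega⟩
    have pS := w.pS
    have pc : MV.Pu (H1.ch (q + 2)) := MV.pu_ch q
    have e' : comps (H1.W R .nil B S i) = H1.ch (q + 2) :: S' :: comps B' := by
      rw [e]; rfl
    have hy : ∃ l2 y, H1.ch (q + 2) :: S' :: comps B' = l2 ++ [y] ∧ MV.Pu y := by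
      by_cases hB : B' = .nil
      · subst hB
        exact ⟨[H1.ch (q + 2)], S', rfl, pS⟩
      · obtain ⟨l, y, ey, py⟩ := MV.lst_pu hB w.fB w.cB
        exact ⟨H1.ch (q + 2) :: S' :: l, y, by rw [ey]; rfl, py⟩
    obtain ⟨l2, y, ey, py⟩ := hy
    refine MV.clsO h hi e' (x := H1.ch (q + 2)) (l1 := S' :: comps B') (l2 := l2) (y := y) rfl ey (by simp)
      ?_ ?_ (fun S0 _ => pc.x S0) (fun B0 _ => py.y B0)
    · simp only [List.mem_cons, not_or]
      exact ⟨fun h => pc.1 h.symm, fun h => pS.1 h.symm, w.fB.nil_mem⟩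
    · simp only [List.mem_cons, not_or]
      exact ⟨fun h => pc.2.1 h.symm, fun h => pS.2.1 h.symm, w.fB.one_mem⟩
  · obtain ⟨q, rfl⟩ : ∃ m, q = m + 1 := ⟨q - 1, by omega⟩
    have pc : MV.Pu (H1.ch (q + 2)) := MV.pu_ch q
    obtain ⟨x, l, ex, px⟩ := MV.fst_pu w.pS.1 w.fS w.cS
    have e' : comps (H1.W R .nil B S i) = comps S' ++ [B', H1.ch (q + 2)] := by
      rw [e]; change comps (app S' _) = _; rw [comps_app]; rfl
    by_cases hB : B' = .nil
    · subst hB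
      obtain ⟨_, e2⟩ := MV.clsN h hi e' (x := x) (l1 := l ++ [.nil, H1.ch (q + 2)])
        (l2 := comps S' ++ [.nil]) (y := H1.ch (q + 2)) (by rw [ex]; rfl) (by simp) px.1
        pc.1 (a := comps S') (b := [H1.ch (q + 2)]) rfl w.fS.nil_mem
      rw [List.cons.injEq] at e2
      exact comps_ne h.neS e2.2.symm
    · have hB1 : B' ≠ .nil △ .nil := by
        intro h
        have h0 := w.cB
        rw [h] at h0
        exact absurd rfl (ne_nil_node h0 (Y := .nil))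
      refine MV.clsO h hi e' (x := x) (l1 := l ++ [B', H1.ch (q + 2)])
        (l2 := comps S' ++ [B']) (y := H1.ch (q + 2)) (by rw [ex]; rfl) (by simp) (by simp)
        ?_ ?_ (fun S0 _ => px.x S0) (fun B0 _ => pc.y B0)
      · simp only [List.mem_append, List.mem_cons, List.not_mem_nil, or_false, not_or]
        exact ⟨w.fS.nil_mem, fun h => hB h.symm, fun h => pc.1 h.symm⟩
      · simp only [List.mem_append, List.mem_cons, List.not_mem_nil, or_false, not_or]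
        exact ⟨w.fS.one_mem, fun h => hB1 h.symm, fun h => pc.2.1 h.symm⟩

/-- **MarA, MarB over a window with `q ≥ 1` have no common word with J2B** -/
theorem TyMarA.dis_J2 (h : TyMarA R' (H1.ch (q + 1)) F' g') (h1 : H1.PT q R' B' S') (hd : SqD k R B S)
    (hA : ∀ w ∈ A, ∃ i < 20, w.1 = H1.W R .nil B S i) : ∀ w ∈ g'.B, w ∉ A := by
  intro w hw hw'
  obtain ⟨i, hi, e'⟩ := hA w hw'
  have key : ∀ j, (j = 0 ∨ j = 5 ∨ j = 6) → w.1 = H1.W R' (H1.ch (q + 1)) B' S' j → False :=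
    fun j hj e => MV.mar056 hd h1.wd h1.pd.q1 hi hj (by rw [← e, ← e'])
  rcases TyMar.words h w hw with ⟨e, _⟩ | ⟨_, e | e⟩
  · exact key 5 (by omega) e
  · exact key 6 (by omega) e
  · exact key 0 (by omega) e

theorem TyMarB.dis_J2 (h : TyMarB B' S' (H1.ch (q + 1)) F' g') (h1 : H1.PT q R' B' S') (hd : SqD k R B S)
    (hA : ∀ w ∈ A, ∃ i < 20, w.1 = H1.W R .nil B S i) : ∀ w ∈ g'.B, w ∉ A := by
  intro w hw hw'
  obtain ⟨i, hi, e'⟩ := hA w hw'
  have key : ∀ j, (j = 10 ∨ j = 15 ∨ j = 16) → w.1 = H1.W R' (H1.ch (q + 1)) B' S' j → False :=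
    fun j hj e => MV.mar1056 hd h1.wd h1.pd.q1 hi hj (by rw [← e, ← e'])
  rcases TyMar.words h w hw with ⟨e, _⟩ | ⟨_, e | e⟩
  · exact key 16 (by omega) e
  · exact key 10 (by omega) e
  · exact key 15 (by omega) e

theorem TyMarB'.dis_J2 (h : TyMarB' B' S' (H1.ch (q + 1)) F' g') (h1 : H1.PT q R' B' S') (hd : SqD k R B S)
    (hA : ∀ w ∈ A, ∃ i < 20, w.1 = H1.W R .nil B S i) : ∀ w ∈ g'.B, w ∉ A := by
  intro w hw hw'
  obtain ⟨i, hi, e'⟩ := hA w hw'
  have key : ∀ j, (j = 10 ∨ j = 15 ∨ j = 16) → w.1 = H1.W R' (H1.ch (q + 1)) B' S' j → False :=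
    fun j hj e => MV.mar1056 hd h1.wd h1.pd.q1 hi hj (by rw [← e, ← e'])
  rcases TyMar.words h w hw with ⟨e, _⟩ | ⟨_, e | e⟩
  · exact key 15 (by omega) e
  · exact key 16 (by omega) e
  · exact key 10 (by omega) e

/-! ### Inner words of J2B -/

/-- **an inner word of J2B is never a word of a window with `q ≥ 1`** -/
theorem J3.J2In.inner_PWb (h : J2In F g) (h' : PWb g') : ∀ p ∈ g.arcs, ∀ w ∈ innA p, w ∉ g'.B := by
  refine InB.row h fun n w _ h1 hw => ?_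
  obtain ⟨q, R', B', S', j, h2, hj, e⟩ := h'.w w hw
  exact h1.not_win h2.wd.cR h2.wd.cB h2.wd.cS hj (Or.inl e)

/-- **... and never a word of a B-window** (every marker `c ≥ 2`) -/
theorem J3.J2In.inner_BwC (h : J2In F g) (h' : TyBw F' g') : ∀ p ∈ g.arcs, ∀ w ∈ innA p, w ∉ g'.B := by
  refine InB.row h fun n w _ h1 hw => ?_
  obtain ⟨c, q, R', B', S', w0, i, hn, hi, rfl, _⟩ := h'.words w hw
  have c1 : (OddHC.cont R').count 1 = 0 := by
    rw [Multiset.count_eq_zero]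
    intro h1
    have := hn.c2
    rcases hn.part 1 h1 with h2 | h2 <;> omega
  obtain ⟨c2, c3⟩ : (OddHC.cont B').count 1 = 0 ∧ (OddHC.cont S').count 1 = 0 := by
    have := congrArg (Multiset.count 1) hn.eq
    rw [Multiset.count_add, c1] at this
    omega
  exact h1.not_win c1 c2 c3 hi (Or.inl (hn.word w0 hi))

/-- the marriages over / under a window without a part 1 (every `q`) -/
theorem J3.J2In.inner_MarA (h : J2In F g) (h' : TyMarA R' (H1.ch (q + 1)) F' g') (cR : (OddHC.cont R').count 1 = 0) :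
    ∀ p ∈ g.arcs, ∀ w ∈ innA p, w ∉ g'.B := by
  refine InB.row h fun n w _ h1 hw => ?_
  have c0 : (OddHC.cont (BinaryTree.nil : BinaryTree Unit)).count 1 = 0 := rfl
  have key : ∀ j, j < 20 → w.1 = H1.W R' (H1.ch (q + 1)) .nil .nil j → False := fun j hj e =>
    h1.not_win cR c0 c0 hj (Or.inl e)
  rcases TyMar.words h' w hw with ⟨e, _⟩ | ⟨_, e | e⟩
  · exact key 5 (by norm_num) e
  · exact key 6 (by norm_num) e
  · exact key 0 (by norm_num) e

theorem J3.J2In.inner_MarB (h : J2In F g) (h' : TyMarB B' S' (H1.ch (q + 1)) F' g')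
    (cB : (OddHC.cont B').count 1 = 0) (cS : (OddHC.cont S').count 1 = 0) :
    ∀ p ∈ g.arcs, ∀ w ∈ innA p, w ∉ g'.B := by
  refine InB.row h fun n w _ h1 hw => ?_
  have c0 : (OddHC.cont (BinaryTree.nil : BinaryTree Unit)).count 1 = 0 := rfl
  have key : ∀ j, j < 20 → w.1 = H1.W .nil (H1.ch (q + 1)) B' S' j → False := fun j hj e =>
    h1.not_win c0 cB cS hj (Or.inl e)
  rcases TyMar.words h' w hw with ⟨e, _⟩ | ⟨_, e | e⟩
  · exact key 16 (by norm_num) e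
  · exact key 10 (by norm_num) e
  · exact key 15 (by norm_num) e

theorem J3.J2In.inner_MarB' (h : J2In F g) (h' : TyMarB' B' S' (H1.ch (q + 1)) F' g')
    (cB : (OddHC.cont B').count 1 = 0) (cS : (OddHC.cont S').count 1 = 0) :
    ∀ p ∈ g.arcs, ∀ w ∈ innA p, w ∉ g'.B := by
  refine InB.row h fun n w _ h1 hw => ?_
  have c0 : (OddHC.cont (BinaryTree.nil : BinaryTree Unit)).count 1 = 0 := rfl
  have key : ∀ j, j < 20 → w.1 = H1.W .nil (H1.ch (q + 1)) B' S' j → False := fun j hj e =>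
    h1.not_win c0 cB cS hj (Or.inl e)
  rcases TyMar.words h' w hw with ⟨e, _⟩ | ⟨_, e | e⟩
  · exact key 15 (by norm_num) e
  · exact key 16 (by norm_num) e
  · exact key 10 (by norm_num) e

/-! ### Windows of a fixed height -/

/-- all words of `g` are words of windows of height `n` with `q ≥ 1`, all inner words are `T` of such words -/
structure PWn (n : ℕ) (g : DG k) : Prop where
  w : ∀ w ∈ g.B, ∃ (q : ℕ) (R B S : BinaryTree Unit) (i : ℕ), H1.PT q R B S ∧ i < 20 ∧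
    w.1 = H1.W R (H1.ch (q + 1)) B S i ∧ OddHC.ht R = n
  a : ∀ p ∈ g.arcs, ∀ w ∈ innA p, ∃ (q : ℕ) (R B S : BinaryTree Unit) (i : ℕ) (x : X k), H1.PT q R B S ∧
    i ∈ [0, 1, 3, 6, 8, 9] ∧ x.1 = H1.W R (H1.ch (q + 1)) B S i ∧ w = TT x ∧ OddHC.ht R = n

variable {n : ℕ}

theorem PWn.pwb (h : PWn n g) : PWb g where
  w := fun w hw => by
    obtain ⟨q, R, B, S, i, h1, hi, e, _⟩ := h.w w hw
    exact ⟨q, R, B, S, i, h1, hi, e⟩
  a := fun p hp w hw => by
    obtain ⟨q, R, B, S, i, x, h1, hi, e, e2, _⟩ := h.a p hp w hw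
    exact ⟨q, R, B, S, i, x, h1, hi, e, e2⟩

/-- the height of the T-cycle of word 0 -/
theorem H1.PT.ht0 (h1 : H1.PT q R B S) (hs : R.numNodes + q + 3 = k) (w0 : X k) :
    htc (cyc (H1.wX R B S q w0 0)) = OddHC.ht R := by
  change (OddHC.cont (H1.wX R B S q w0 0).1).sup = _
  rw [H1.wX_cont0 h1.pd.dat hs w0, Multiset.sup_add, Multiset.sup_singleton]
  have := h1.pd.dat.big
  have e : OddHC.ht R = (OddHC.cont R).sup := OddHC.ht_eq R
  change max (OddHC.cont R).sup (q + 3) = OddHC.ht R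
  omega

theorem PWn.of (h1 : H1.PT q R B S) (hs : R.numNodes + q + 3 = k) (w0 : X k)
    (hB : ∀ w ∈ g.B, ∃ i < 20, w = H1.wX R B S q w0 i)
    (ha : ∀ p ∈ g.arcs, ∃ i ∈ [0, 1, 3, 6, 8, 9], p.1 = H1.wX R B S q w0 i) : PWn (OddHC.ht R) g where
  w := fun w hw => by
    obtain ⟨i, hi, rfl⟩ := hB w hw
    exact ⟨q, R, B, S, i, h1, hi, H1.wX_eq h1.pd.dat hs w0 hi, rfl⟩
  a := fun p hp w hw => by
    obtain ⟨i, hi, e⟩ := ha p hp
    have hw' : w = TT p.1 := hw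
    exact ⟨q, R, B, S, i, _, h1, hi, H1.wX_eq h1.pd.dat hs w0 (bw_list20 hi), by rw [hw', e], rfl⟩

/-- B-windows, marker at least 3 -/
theorem TyBw.pwn (h : TyBw F g) (h2 : ∀ d ∈ F, 2 ∉ contc d) (hn : ∀ d ∈ F, htc d = n) : PWn n g where
  w := fun w hw => by
    obtain ⟨c, q, R, B, S, w0, i, h1, hi, rfl, hF⟩ := h.words w hw
    have hb : H1.BD q c R B S := h1.bd (h1.c3 w0 (h2 _ hF))
    exact ⟨q, R, B, S, i, hb.pt, hi, h1.word w0 hi, by rw [← hb.pt.ht0 h1.size w0, hn _ hF]⟩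
  a := fun p hp w hw => by
    obtain ⟨c, q, R, B, S, w0, i, h1, hi, rfl, hF⟩ := h.inn0 p hp w hw
    have hb : H1.BD q c R B S := h1.bd (h1.c3 w0 (h2 _ hF))
    exact ⟨q, R, B, S, i, _, hb.pt, hi, h1.word w0 (bw_list20 hi), rfl, by rw [← hb.pt.ht0 h1.size w0, hn _ hF]⟩

/-- bare windows -/
theorem TyRq.pwn (h : TyRq q F g) (hq : 1 ≤ q) (hn : ∀ d ∈ F, htc d = n) : PWn n g where
  w := fun w hw => by
    obtain ⟨R, B, S, w0, i, h1, hi, rfl, hF⟩ := h.words w hw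
    exact ⟨q, R, B, S, i, h1.pt hq, hi, H1.wX_eq h1.dat h1.size w0 hi, by
      rw [← (h1.pt hq).ht0 h1.size w0, hn _ hF]⟩
  a := fun p hp w hw => by
    obtain ⟨R, B, S, w0, i, h1, hi, rfl, hF⟩ := h.inn0 p hp w hw
    exact ⟨q, R, B, S, i, _, h1.pt hq, hi, H1.wX_eq h1.dat h1.size w0 (bw_list20 hi), rfl, by
      rw [← (h1.pt hq).ht0 h1.size w0, hn _ hF]⟩

/-- bare windows with `B = nil` merged with an E pair -/
theorem TyRqE.pwn (h : TyRqE q F g) (hq : 1 ≤ q) (hn : ∀ d ∈ F, htc d = n) : PWn n g where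
  w := fun w hw => by
    obtain ⟨R, B, S, w0, i, h1, hi, rfl, hF⟩ := h.words' w hw
    exact ⟨q, R, B, S, i, h1.pt hq, hi, H1.wX_eq h1.dat h1.size w0 hi, by
      rw [← (h1.pt hq).ht0 h1.size w0, hn _ hF]⟩
  a := fun p hp w hw => by
    obtain ⟨R, B, S, w0, i, h1, hi, rfl, hF⟩ := h.inn0 p hp w hw
    have hi' : i ∈ [0, 1, 3, 6, 8, 9] := by
      simp only [List.mem_cons, List.not_mem_nil, or_false] at hi ⊢
      omega
    exact ⟨q, R, B, S, i, _, h1.pt hq, hi', H1.wX_eq h1.dat h1.size w0 (bw_list20 hi'), rfl, by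
      rw [← (h1.pt hq).ht0 h1.size w0, hn _ hF]⟩

/-- **common words: the window is lower than the J2B group, by 1 or 2** -/
theorem PWn.common_ht (h : PWn n g) (hd : SqD k R B S) (hA : ∀ w ∈ A, ∃ i < 20, w.1 = H1.W R .nil B S i) {w : X k}
    (hw : w ∈ g.B) (hw' : w ∈ A) : OddHC.ht R = n + 1 ∨ OddHC.ht R = n + 2 := by
  obtain ⟨q, R', B', S', j, h1, hj, e, rfl⟩ := h.w w hw
  obtain ⟨i, hi, e'⟩ := hA w hw'
  have hc := MV.win0 hd h1.wd hi hj (q := q) (by rw [← e, ← e'])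
  have hq := h1.pd.q1
  obtain rfl : q = 1 := by
    obtain ⟨Y, _, h2 | h2⟩ := hc
    · omega
    · exact h2.1
  obtain ⟨a1, a2⟩ := hc.hgt hd h1.pd.dat.htS h1.pd.dat.htB
  omega

/-- a window of the height of the group or higher: no common word -/
theorem PWn.dis_J2_ht (h : PWn n g) (hd : SqD k R B S) (hA : ∀ w ∈ A, ∃ i < 20, w.1 = H1.W R .nil B S i)
    (hh : OddHC.ht R ≤ n ∨ n + 3 ≤ OddHC.ht R) : ∀ w ∈ g.B, w ∉ A := by
  intro w hw hw'
  have := h.common_ht hd hA hw hw'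
  omega

/-- **inner words of the windows: exact list** (`n ≤ ht R`) -/
theorem PWn.inner_J2 (h : PWn n g) (hd : SqD k R B S) (hA : ∀ w ∈ A, ∃ i < 20, w.1 = H1.W R .nil B S i)
    (hle : n ≤ OddHC.ht R) {p : X k × X k} (hp : p ∈ g.arcs) {w : X k} (hw : w ∈ innA p) (hw' : w ∈ A) :
    ∃ (q : ℕ) (R' B' S' : BinaryTree Unit) (x : X k) (i j : ℕ), H1.PT q R' B' S' ∧ OddHC.ht R' = n ∧
      x.1 = H1.W R' (H1.ch (q + 1)) B' S' i ∧ w = TT x ∧ w.1 = H1.W R .nil B S j ∧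
      ((i = 6 ∧ j = 19 ∧ B ≠ .nil) ∨ (i = 9 ∧ (j = 9 ∨ j = 17 ∨ (j = 19 ∧ B ≠ .nil)))) := by
  obtain ⟨q, R', B', S', i, x, h1, hi, e, rfl, e0⟩ := h.a p hp w hw
  obtain ⟨j, hj, e'⟩ := hA _ hw'
  have hb := h1.pd.dat.big
  have hq := h1.pd.q1
  refine ⟨q, R', B', S', x, i, j, h1, e0, e, rfl, e', ?_⟩
  rcases J3.winJ h1.pd.R3 (by omega) hb hi e hd (by omega) hj e' with h2 | ⟨h2, _, h3⟩
  · exact Or.inl h2
  · exact Or.inr ⟨h2, h3⟩

/-- **sharp `R`: no inner word of a window** (`n ≤ ht R`) -/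
theorem PWn.inner_J2_sharp (h : PWn n g) (hd : SqD k R B S) (hs : J3.Sharp R)
    (hA : ∀ w ∈ A, ∃ i < 20, w.1 = H1.W R .nil B S i) (hle : n ≤ OddHC.ht R) :
    ∀ p ∈ g.arcs, ∀ w ∈ innA p, w ∉ A := by
  intro p hp w hw hw'
  obtain ⟨q, R', B', S', i, x, h1, hi, e, rfl, e0⟩ := h.a p hp w hw
  obtain ⟨j, hj, e'⟩ := hA _ hw'
  have hb := h1.pd.dat.big
  have hq := h1.pd.q1
  exact J3.winJ_sharp h1.pd.R3 (by omega) hb hi e hd hs (by omega) hj e'

end Pool.OddHC
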